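import Mathlib
import Pool.Agent.U744.PF.Fin

/-!
# Palindromes with a large prime factor

The `10 ^ N` decimal palindromes with `2 N + 1` digits and the first (and last) digit `1`: at least
`70` percent of them have a prime factor larger than `10 ^ (3 N / 5)`, about `n ^ (3 / 10)`. At least
`8 ^ N` of the decimal palindromes `n` with `2 N + 1` digits have a prime factor larger than
`n ^ 0.368`; in the base `b` the exponent is any number below
`log (b (b + 2) / (2 (b + 1))) / (2 log b)`, which tends to `1 / 2` for large bases.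

The proof is Chebyshev's method. Let a family of palindromes have the level of distribution `D`
(starting libraries H476R2, W89). The sum of `Λ(q)` over the divisors `q ≤ D` of `n` is `log D + O(1)`
in the mean. If `n` has no prime factor above `D` and is not divisible by the square of an integer
between `D ^ (1 / 8)` and `D` (by the starting libraries almost no palindrome is), then all prime
powers which divide `n` are at most `D`, and the sum is `log n`. So this holds for at most a proportion
`log D / log n + o(1)` of the palindromes.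
-/

set_option autoImplicit false

namespace Pool.Agent.Results.MP_540de1_nt.LargePrimeFactors

open Filter

/-- the palindromes in the base `b` with exactly `2 N + 1` digits -/
def palindromes (b N : ℕ) : Finset ℕ :=
  (Finset.range (b ^ (2 * N + 1))).filter fun n =>
    b ^ (2 * N) ≤ n ∧ (Nat.digits b n).reverse = Nat.digits b n

open Classical in
/-- (1) For `ε > 0` and large `N`, at least `(7 / 10 - ε) 10 ^ N` of the decimal palindromes with
`2 N + 1` digits and the last digit `1` have a prime factor above `10 ^ (3 N / 5)`. (2) For large `N`,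
at least `8 ^ N` of the decimal palindromes `n` with `2 N + 1` digits have a prime factor above
`n ^ 0.368`. (3) For `b ≥ 3`, `θ ≥ 0` and `b ^ (2 θ) 2 (b + 1) < b (b + 2)`, for large `N`, at least
`(b / 2) ^ N` of the palindromes `n` in the base `b` with `2 N + 1` digits have a prime factor above
`n ^ θ`. (4) For `0 ≤ θ < 1 / 2` this holds for all large `b`. -/
theorem result :
    (∀ ε : ℝ, 0 < ε → ∀ᶠ N : ℕ in atTop, (7 / 10 - ε) * 10 ^ N ≤
      (((palindromes 10 N).filter fun n => n % 10 = 1 ∧
        ∃ p : ℕ, p.Prime ∧ p ∣ n ∧ (10 : ℝ) ^ ((3 / 5 : ℝ) * N) < p).card : ℝ)) ∧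
    (∀ᶠ N : ℕ in atTop, (8 : ℝ) ^ N ≤
      (((palindromes 10 N).filter fun n => ∃ p : ℕ, p.Prime ∧ p ∣ n ∧
        (n : ℝ) ^ (0.368 : ℝ) < p).card : ℝ)) ∧
    (∀ b : ℕ, 3 ≤ b → ∀ θ : ℝ, 0 ≤ θ → (b : ℝ) ^ (2 * θ) * (2 * (b + 1)) < b * (b + 2) →
      ∀ᶠ N : ℕ in atTop, ((b : ℝ) / 2) ^ N ≤
        (((palindromes b N).filter fun n => ∃ p : ℕ, p.Prime ∧ p ∣ n ∧
          (n : ℝ) ^ θ < p).card : ℝ)) ∧
    ∀ θ : ℝ, 0 ≤ θ → θ < 1 / 2 → ∀ᶠ b : ℕ in atTop, ∀ᶠ N : ℕ in atTop, ((b : ℝ) / 2) ^ N ≤
      (((palindromes b N).filter fun n => ∃ p : ℕ, p.Prime ∧ p ∣ n ∧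
        (n : ℝ) ^ θ < p).card : ℝ) := by
  have key : ∀ b : ℕ, 3 ≤ b → ∀ θ : ℝ, 0 ≤ θ → (b : ℝ) ^ (2 * θ) * (2 * (b + 1)) < b * (b + 2) →
      ∀ᶠ N : ℕ in atTop, ((b : ℝ) / 2) ^ N ≤
        (((palindromes b N).filter fun n => ∃ p : ℕ, p.Prime ∧ p ∣ n ∧
          (n : ℝ) ^ θ < p).card : ℝ) := by
    intro b hb θ h0 h1
    filter_upwards [Pool.Agent.U744.PF.base hb h0 h1] with N h2
    unfold palindromes
    rw [Finset.filter_filter]
    simp only [and_assoc]
    exact h2
  refine ⟨?_, ?_, key, ?_⟩
  · intro ε hε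
    filter_upwards [Pool.Agent.U744.PF.fullN hε] with N h2
    unfold palindromes
    rw [Finset.filter_filter]
    refine h2.trans (le_of_eq ?_)
    congr 2
    ext n
    simp only [Finset.mem_filter]
    tauto
  · filter_upwards [Pool.Agent.U744.PF.decimal] with N h2
    unfold palindromes
    rw [Finset.filter_filter]
    simp only [and_assoc]
    exact h2
  · intro θ h0 h1
    filter_upwards [Pool.Agent.U744.PF.large_base h1, eventually_ge_atTop 3] with b h2 hb
    exact key b hb θ h0 h2

end Pool.Agent.Results.MP_540de1_nt.LargePrimeFactors
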