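import Pool.Agent.U668.PA.Rand3
import Pool.Agent.U668.PA.Wb

/-!
# Decimal palindromes with prescribed leading digits in sieved random models of the primes
-/

set_option autoImplicit false

namespace Pool.Agent.Results.MP_540de1_nt.LeadingDigitsInSievedModels

open Finset Filter Topology MeasureTheory ProbabilityTheory

open Classical in
/-- The probability with which `n` is chosen in the model with sieve limit `T`: it is
`(log n)⁻¹ ∏_{p ≤ T n} (1 - 1/p)⁻¹` if `n` has no prime factor `p ≤ T n`, and `0` otherwise. -/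
noncomputable def prob (T : ℕ → ℕ) (n : ℕ) : ℝ :=
  if ∀ p, p.Prime → p ≤ T n → ¬ p ∣ n then
    (∏ p ∈ (Icc 1 (T n)).filter Nat.Prime, (1 - 1 / (p : ℝ))⁻¹) / Real.log n
  else 0

/-- `n` is a decimal palindrome -/
def IsPal (n : ℕ) : Prop := (Nat.digits 10 n).reverse = Nat.digits 10 n

theorem prob_eq (T : ℕ → ℕ) (n : ℕ) : prob T n = Pool.Agent.U485.SM.fT T n / Real.log n := by
  unfold prob Pool.Agent.U485.SM.fT Pool.Agent.U485.SM.W Pool.Agent.U485.SM.Pr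
  split_ifs
  · rfl
  · rw [zero_div]

open Classical in
/-- the first part -/
theorem part1 (δ : ℝ) (hδ : 0 < δ) : ∃ ε : ℝ, 0 < ε ∧ ∀ᶠ M : ℕ in atTop, ∀ K w t : ℕ,
    10 ^ K ≤ w → w < 10 ^ (K + 1) → w / 10 ^ K ∈ ({1, 3, 7, 9} : Finset ℕ) →
    10 ≤ t → (t : ℝ) ≤ (10 : ℝ) ^ (ε * M) →
      |(((range (10 ^ (2 * (M + K) + 1))).filter (fun n => IsPal n ∧
          n / 10 ^ (2 * M + K) = w ∧ ∀ p, p.Prime → p ≤ t → ¬ p ∣ n)).card : ℝ) -
        5 / 2 * 10 ^ M * ∏ p ∈ (Icc 1 t).filter Nat.Prime, (1 - 1 / (p : ℝ))| ≤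
      δ * (5 / 2 * 10 ^ M * ∏ p ∈ (Icc 1 t).filter Nat.Prime, (1 - 1 / (p : ℝ))) := by
  obtain ⟨ε, hε, h⟩ := Pool.Agent.U668.PA.wblock (b := 10) (by norm_num) (by norm_num)
    (Pool.Agent.U668.PA.bvB_all (by norm_num)) δ hδ
  refine ⟨ε, hε, ?_⟩
  filter_upwards [h] with M hM K w t hw1 hw2 hw3 hbt ht
  have hcop : (w / 10 ^ K).Coprime 10 := by
    rw [mem_insert, mem_insert, mem_insert, mem_singleton] at hw3
    rcases hw3 with h | h | h | h <;> rw [h] <;> decide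
  have h1 := hM K w t hw1 hw2 hcop hbt (by exact_mod_cast ht)
  have htot : Nat.totient 10 = 4 := by decide
  have hc : ((10 : ℕ) : ℝ) ^ M * (((10 : ℕ) : ℝ) / ((Nat.totient 10 : ℕ) *
      Pool.Agent.U485.SM.W t)) =
      5 / 2 * 10 ^ M * ∏ p ∈ (Icc 1 t).filter Nat.Prime, (1 - 1 / (p : ℝ)) := by
    have h2 : Pool.Agent.U485.SM.W t =
        (∏ p ∈ (Icc 1 t).filter Nat.Prime, (1 - 1 / (p : ℝ)))⁻¹ := by
      unfold Pool.Agent.U485.SM.W Pool.Agent.U485.SM.Pr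
      rw [Finset.prod_inv_distrib]
    rw [h2, htot, mul_comm (((4 : ℕ) : ℝ)), ← div_div, div_inv_eq_mul]
    push_cast
    ring
  have hS : (Pool.Agent.H181R5.PBT9.palin 10 (M + K)).filter
      (fun n => n / 10 ^ (2 * M + K) = w ∧ ∀ p, p.Prime → p ≤ t → ¬ p ∣ n) =
      (range (10 ^ (2 * (M + K) + 1))).filter (fun n => IsPal n ∧
          n / 10 ^ (2 * M + K) = w ∧ ∀ p, p.Prime → p ≤ t → ¬ p ∣ n) := by
    ext n
    simp only [Pool.Agent.H181R5.PBT9.palin, mem_filter, IsPal]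
    constructor
    · rintro ⟨⟨h2, _, h3⟩, h4, h5⟩
      exact ⟨h2, h3, h4, h5⟩
    · rintro ⟨h2, h3, h4, h5⟩
      refine ⟨⟨h2, ?_, h3⟩, h4, h5⟩
      have h6 : 10 ^ K * 10 ^ (2 * M + K) ≤ n := by
        refine le_trans (Nat.mul_le_mul_right _ hw1) ?_
        rw [← h4]
        exact Nat.div_mul_le_self _ _
      rw [← pow_add, show K + (2 * M + K) = 2 * (M + K) by ring] at h6
      exact h6
  rw [hS, hc] at h1
  exact h1

open Classical in
/-- the second part: in every sieved random model, almost surely: for all `θ < 1` and `δ > 0`, for all large `L`,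
for all `K ≤ θ L` and all `w` with exactly `K + 1` digits and leading digit 1, 3, 7 or 9, the
number of the chosen decimal palindromes with `2 L + 1` digits that begin with `w` is
`(1 ± δ) (5 / 2) 10 ^ (L - K) / (2 L log 10)`. -/
theorem part2 (Ω : Type) (mΩ : MeasurableSpace Ω) (μ : Measure Ω) (hμ : IsProbabilityMeasure μ)
    (E : ℕ → Set Ω) (hE : ∀ n, MeasurableSet (E n)) (hI : iIndepSet E μ)
    (T : ℕ → ℕ) (hT : Monotone T) (hT10 : ∀ᶠ n : ℕ in atTop, 10 ≤ T n)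
    (hTs : ∀ ε : ℝ, 0 < ε → ∀ᶠ n : ℕ in atTop, (T n : ℝ) ≤ (n : ℝ) ^ ε)
    (hp : ∀ᶠ n : ℕ in atTop, μ.real (E n) = prob T n) :
    ∀ᵐ ω ∂μ, ∀ θ : ℝ, θ < 1 → ∀ δ : ℝ, 0 < δ → ∀ᶠ L : ℕ in atTop,
      ∀ K : ℕ, (K : ℝ) ≤ θ * L → ∀ w : ℕ, 10 ^ K ≤ w → w < 10 ^ (K + 1) →
        w / 10 ^ K ∈ ({1, 3, 7, 9} : Finset ℕ) →
        |(((range (10 ^ (2 * L + 1))).filter (fun n => IsPal n ∧ n / 10 ^ (2 * L - K) = w ∧
            ω ∈ E n)).card : ℝ) - 5 / 2 * 10 ^ (L - K) / (2 * L * Real.log 10)| ≤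
          δ * (5 / 2 * 10 ^ (L - K) / (2 * L * Real.log 10)) := by
  have hp' : ∀ᶠ n : ℕ in atTop, μ.real (E n) =
      Pool.Agent.U485.SM.fT T n / Real.log n := by
    filter_upwards [hp] with n hn
    rw [hn, prob_eq]
  have h := Pool.Agent.U668.PA.wchosen (b := 10) μ hμ E hE hI (by norm_num) (by norm_num) T hT
    hT10 hTs hp'
  filter_upwards [h] with ω hω θ hθ δ hδ
  filter_upwards [hω θ hθ δ hδ, eventually_ge_atTop 1] with L hL hL1 K hK w hw1 hw2 hw3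
  have hcop : (w / 10 ^ K).Coprime 10 := by
    rw [mem_insert, mem_insert, mem_insert, mem_singleton] at hw3
    rcases hw3 with h | h | h | h <;> rw [h] <;> decide
  have h1 := hL K hK w hw1 hw2 hcop
  have hKL : K ≤ L := by
    have h6 : (0 : ℝ) ≤ L := Nat.cast_nonneg _
    have : (K : ℝ) ≤ L := hK.trans (by nlinarith)
    exact_mod_cast this
  have htot : Nat.totient 10 = 4 := by decide
  have hAA : Pool.Agent.U668.PA.AA 10 L K = 5 / 2 * 10 ^ (L - K) / (2 * L * Real.log 10) := by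
    unfold Pool.Agent.U668.PA.AA
    rw [htot]
    push_cast
    ring
  have hS : Pool.Agent.U668.PA.nchS E (Pool.Agent.U668.PA.wp 10 L K w) ω =
      (((range (10 ^ (2 * L + 1))).filter (fun n => IsPal n ∧ n / 10 ^ (2 * L - K) = w ∧
            ω ∈ E n)).card : ℝ) := by
    unfold Pool.Agent.U668.PA.nchS Pool.Agent.U668.PA.wp
    congr 2
    ext n
    simp only [Pool.Agent.H181R5.PBT9.palin, mem_filter, IsPal]
    constructor
    · rintro ⟨⟨⟨h2, _, h3⟩, h4⟩, h5⟩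
      exact ⟨h2, h3, h4, h5⟩
    · rintro ⟨h2, h3, h4, h5⟩
      refine ⟨⟨⟨h2, ?_, h3⟩, h4⟩, h5⟩
      have h6 : 10 ^ K * 10 ^ (2 * L - K) ≤ n := by
        refine le_trans (Nat.mul_le_mul_right _ hw1) ?_
        rw [← h4]
        exact Nat.div_mul_le_self _ _
      rw [← pow_add, show K + (2 * L - K) = 2 * L by omega] at h6
      exact h6
  rw [hAA, hS] at h1
  exact h1

open Classical in
/-- (1) Decimal palindromes with prescribed leading digits `w` and without prime factors `≤ t`,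
uniformly in the number of the prescribed digits, in `w` and in `10 ≤ t ≤ 10 ^ (ε M)`, where
`M` is the number of the free digits. (2) In every sieved random model, almost surely: for all
`θ < 1` and `δ > 0`, for all large `L`, for all `K ≤ θ L` and all `w` with exactly `K + 1` digits
and leading digit 1, 3, 7 or 9, the number of the chosen decimal palindromes with `2 L + 1` digits
that begin with `w` is `(1 ± δ) (5 / 2) 10 ^ (L - K) / (2 L log 10)`. -/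
theorem result :
    (∀ δ : ℝ, 0 < δ → ∃ ε : ℝ, 0 < ε ∧ ∀ᶠ M : ℕ in atTop, ∀ K w t : ℕ,
      10 ^ K ≤ w → w < 10 ^ (K + 1) → w / 10 ^ K ∈ ({1, 3, 7, 9} : Finset ℕ) →
      10 ≤ t → (t : ℝ) ≤ (10 : ℝ) ^ (ε * M) →
        |(((range (10 ^ (2 * (M + K) + 1))).filter (fun n => IsPal n ∧
            n / 10 ^ (2 * M + K) = w ∧ ∀ p, p.Prime → p ≤ t → ¬ p ∣ n)).card : ℝ) -
          5 / 2 * 10 ^ M * ∏ p ∈ (Icc 1 t).filter Nat.Prime, (1 - 1 / (p : ℝ))| ≤
        δ * (5 / 2 * 10 ^ M * ∏ p ∈ (Icc 1 t).filter Nat.Prime, (1 - 1 / (p : ℝ)))) ∧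
    (∀ (Ω : Type) (mΩ : MeasurableSpace Ω) (μ : Measure Ω), IsProbabilityMeasure μ →
      ∀ E : ℕ → Set Ω, (∀ n, MeasurableSet (E n)) → iIndepSet E μ →
      ∀ T : ℕ → ℕ, Monotone T → (∀ᶠ n : ℕ in atTop, 10 ≤ T n) →
      (∀ ε : ℝ, 0 < ε → ∀ᶠ n : ℕ in atTop, (T n : ℝ) ≤ (n : ℝ) ^ ε) →
      (∀ᶠ n : ℕ in atTop, μ.real (E n) = prob T n) →
      ∀ᵐ ω ∂μ, ∀ θ : ℝ, θ < 1 → ∀ δ : ℝ, 0 < δ → ∀ᶠ L : ℕ in atTop,
        ∀ K : ℕ, (K : ℝ) ≤ θ * L → ∀ w : ℕ, 10 ^ K ≤ w → w < 10 ^ (K + 1) →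
          w / 10 ^ K ∈ ({1, 3, 7, 9} : Finset ℕ) →
          |(((range (10 ^ (2 * L + 1))).filter (fun n => IsPal n ∧ n / 10 ^ (2 * L - K) = w ∧
              ω ∈ E n)).card : ℝ) - 5 / 2 * 10 ^ (L - K) / (2 * L * Real.log 10)| ≤
            δ * (5 / 2 * 10 ^ (L - K) / (2 * L * Real.log 10))) :=
  ⟨part1, part2⟩

end Pool.Agent.Results.MP_540de1_nt.LeadingDigitsInSievedModels
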