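import Mathlib
import Pool.Agent.U857.PX.A10

/-!
Decimal palindromes with few prime factors and arbitrary prescribed digits at an arbitrary set of places.
-/

set_option autoImplicit false

namespace Pool.Agent.Results.MP_540de1_nt.PrescribedDigits

open Finset Filter

open Classical in
/-- Let `0 ≤ δ ≤ 7 / 25`, let `C` be real and `2.778 ≤ (r - 0.182) (1 - δ)` (for instance `r = 4` and `δ = 1 / 4`, or
`r = 3` and `δ = 1 / 71`).  For all large `N`, all decimal palindromes `w` with `2 N + 1` digits which are prime to `10`,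
and all sets `S` of places `0, …, N` which have at most `δ (v - u) + C` elements in every interval `u ≤ i < v`: at least
`8 ^ (N - |S|)` palindromes `n` with `2 N + 1` digits have the same first, middle and last digit as `w`, have the same
digit as `w` in every place `i ∈ S` (hence also in every place `2 N - i`, `i ∈ S`), and have at most `r` prime factors
counted with multiplicity, all of them larger than `10 ^ (N / 12)`. -/
theorem result (δ C : ℝ) (r : ℕ) (hδ0 : 0 ≤ δ) (hδ : δ ≤ 7 / 25)
    (hr : 2778 / 1000 ≤ ((r : ℝ) - 182 / 1000) * (1 - δ)) :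
    ∀ᶠ N : ℕ in atTop, ∀ w : ℕ, 10 ^ (2 * N) ≤ w → w < 10 ^ (2 * N + 1) →
      (Nat.digits 10 w).reverse = Nat.digits 10 w → w.Coprime 10 → ∀ S : Finset ℕ, S ⊆ range (N + 1) →
      (∀ u v : ℕ, u ≤ v → ((S.filter (fun i => u ≤ i ∧ i < v)).card : ℝ) ≤ δ * ((v : ℝ) - u) + C) →
      8 ^ (N - S.card) ≤ ((range (10 ^ (2 * N + 1))).filter (fun n => (Nat.digits 10 n).reverse = Nat.digits 10 n ∧
        n / 10 ^ (2 * N) = w / 10 ^ (2 * N) ∧ n / 10 ^ N % 10 = w / 10 ^ N % 10 ∧
        (∀ i ∈ S, n / 10 ^ i % 10 = w / 10 ^ i % 10) ∧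
        n.primeFactorsList.length ≤ r ∧ ∀ p ∈ n.primeFactorsList, (10 : ℝ) ^ ((N : ℝ) / 12) < p)).card :=
  Pool.Agent.U857.PX.presc10 hδ0 hδ hr

end Pool.Agent.Results.MP_540de1_nt.PrescribedDigits
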