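import Pool.Agent.U857.PX.DirTen

/-!
# Palindromes with few prime factors in residue classes, base 10

Dirichlet's theorem for decimal palindromes with at most three prime factors, also for the multiples of a fixed number
and with prescribed leading digits.
-/

set_option autoImplicit false

namespace Pool.Agent.Results.MP_540de1_nt.ResidueClasses

open Finset Filter

/-- (1) Let `g` be prime to `10`, let `M ≥ 1`, and let `a` be prime to `10 M`.  For all large `N`, at least `8 ^ N` of
the palindromes `n` with exactly `2 N + 1` decimal digits are divisible by `g`, satisfy `n / g ≡ a (mod M)`, and `n / g`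
has at most three prime factors counted with multiplicity, each of them larger than `10 ^ (N / 9)`.

(2) Let `g` and `M` be prime to `10`, let `a` be prime to `M`, and let `0 ≤ θ < 1` and `2.778 ≤ (r - 0.182) (1 - θ)`.
For all large `N`, all `K ≤ θ N` and all `w` with exactly `K + 1` decimal digits and leading digit `1`, `3`, `7` or `9`,
at least `8 ^ (N - K)` of the `n < 10 ^ (2 N + 1)` whose first `K + 1` digits form `w` are palindromes divisible by `g`
with `n / g ≡ a (mod M)` such that `n / g` has at most `r` prime factors counted with multiplicity, each of them larger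
than `10 ^ ((N - K) / 9)`. -/
theorem result (g : ℕ) (hg : g.Coprime 10) :
    (∀ M a : ℕ, M ≠ 0 → a.Coprime M → a.Coprime 10 → ∀ᶠ N : ℕ in atTop,
      8 ^ N ≤ ((range (10 ^ (2 * N + 1))).filter (fun n => 10 ^ (2 * N) ≤ n ∧
        (Nat.digits 10 n).reverse = Nat.digits 10 n ∧ (g ∣ n ∧ n / g ≡ a [MOD M]) ∧
        (n / g).primeFactorsList.length ≤ 3 ∧
        ∀ p ∈ (n / g).primeFactorsList, (10 : ℝ) ^ ((N : ℝ) / 9) < p)).card) ∧
    ∀ M a r : ℕ, M.Coprime 10 → a.Coprime M → ∀ θ : ℝ, 0 ≤ θ → θ < 1 →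
      2778 / 1000 ≤ ((r : ℝ) - 182 / 1000) * (1 - θ) → ∀ᶠ N : ℕ in atTop, ∀ K : ℕ, (K : ℝ) ≤ θ * N →
      ∀ w : ℕ, 10 ^ K ≤ w → w < 10 ^ (K + 1) → (w / 10 ^ K).Coprime 10 →
      8 ^ (N - K) ≤ ((range (10 ^ (2 * N + 1))).filter (fun n => n / 10 ^ (2 * N - K) = w ∧
        (Nat.digits 10 n).reverse = Nat.digits 10 n ∧ (g ∣ n ∧ n / g ≡ a [MOD M]) ∧
        (n / g).primeFactorsList.length ≤ r ∧
        ∀ p ∈ (n / g).primeFactorsList, (10 : ℝ) ^ (((N - K : ℕ) : ℝ) / 9) < p)).card := by
  refine ⟨fun M a hM ha ha10 => Pool.Agent.U857.PX.ten2 hg hM ha ha10, ?_⟩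
  intro M a r hM ha θ hθ0 hθ1 hr
  have h := Pool.Agent.U857.PX.ten1 (g := g) (M := M) (a := a) (r := r) hg hM ha (θ := θ) (B := 8) (η := 1 / 9)
    hθ0 hθ1 hr (by norm_num) (by norm_num) (by norm_num)
  filter_upwards [h] with N hN K hK w hw1 hw2 hw3
  have h1 := hN K hK w hw1 hw2 hw3
  have e : (((10 : ℕ) : ℝ)) ^ (1 / 9 * ((N - K : ℕ) : ℝ)) = (10 : ℝ) ^ (((N - K : ℕ) : ℝ) / 9) := by
    push_cast
    congr 1
    ring
  rw [e] at h1
  exact_mod_cast h1

end Pool.Agent.Results.MP_540de1_nt.ResidueClasses
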